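import Pool.Agent.X12.Toep4

/-!
# The determinant of `[x + (j - k / p)]`, `p ≡ 3 (mod 4)`
-/

set_option autoImplicit false

namespace Pool.Agent.Results.MP_d17a30_nt.ToeplitzLegendre

open Polynomial Pool.Agent.X12

/-- The matrix `[x + ((j - k) / p)]` of order `(p - 1) / 2` over `ℤ[x]`, `1 ≤ j, k ≤ (p - 1) / 2`. -/
noncomputable def M (p : ℕ) [Fact p.Prime] : Matrix (Fin ((p - 1) / 2)) (Fin ((p - 1) / 2)) ℤ[X] :=
  Matrix.of fun j k => X + C (legendreSym p (((j : ℕ) : ℤ) + 1 - (((k : ℕ) : ℤ) + 1)))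

/-- For every prime `p ≡ 3 (mod 4)` one has `det [x + ((j - k) / p)] = x`. -/
theorem result (p : ℕ) [Fact p.Prime] (hp : p % 4 = 3) : (M p).det = X := by
  obtain ⟨n, hn⟩ : ∃ n : ℕ, p = 2 * n + 1 := ⟨(p - 1) / 2, by omega⟩
  have hn' : (p - 1) / 2 = n := by omega
  have h1 : M p = (TC p ((p - 1) / 2)).map (C : ℤ →+* ℤ[X]) +
      (X : ℤ[X]) • Matrix.of fun _ _ => (1 : ℤ[X]) := by
    ext1 j k
    simp only [M, TC, Matrix.of_apply, Matrix.add_apply, Matrix.map_apply, Matrix.smul_apply,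
      smul_eq_mul, mul_one]
    rw [add_comm, legendre_eq]
    push_cast
    rw [add_sub_add_right_eq_sub]
  rw [h1, det_add_J, bd_map, ← RingHom.mapMatrix_apply, ← RingHom.mapMatrix_apply,
    ← RingHom.map_det, ← RingHom.map_det, hn', det_bd_TC hn hp]
  have hskew : (TC p n).transpose = - TC p n := by
    ext i j
    rw [Matrix.transpose_apply, Matrix.neg_apply]
    simp only [TC, Matrix.of_apply]
    rw [← neg_sub, qc_neg, qc_neg_one_of_three hp]
    ring
  have h0 : (TC p n).det = 0 := by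
    have h7 := congrArg Matrix.det hskew
    rw [Matrix.det_transpose, Matrix.det_neg, Fintype.card_fin] at h7
    have hodd : Odd n := Nat.odd_iff.2 (by omega)
    rw [hodd.neg_one_pow] at h7
    omega
  rw [h0, map_zero, map_one, mul_one, zero_add]

end Pool.Agent.Results.MP_d17a30_nt.ToeplitzLegendre
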